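import Pool.Agent.Helper80.LR.Spec

/-!
Module LR-7 of project LR (MP_56dece_co): transfer of the probability to independent rows.
-/

set_option autoImplicit false
open Classical Filter Topology

namespace Pool.Agent.Helper9.LR

open Pool.Agent.Helper80.LR

/-- the rows of a triple system -/
noncomputable def rowsOf {n : ℕ} (S : Finset (Fin n × Fin n × Fin n)) : Fin n → Finset (Cell n) :=
  fun i => Finset.univ.filter (fun e => (i, e) ∈ S)

/-- the triple system of given rows -/
noncomputable def sysOf {n : ℕ} (G : Fin n → Finset (Cell n)) : Finset (Fin n × Fin n × Fin n) :=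
  Finset.univ.filter (fun x => x.2 ∈ G x.1)

theorem mem_rowsOf {n : ℕ} (S : Finset (Fin n × Fin n × Fin n)) (i : Fin n) (e : Cell n) :
    e ∈ rowsOf S i ↔ (i, e) ∈ S := by
  simp only [rowsOf, Finset.mem_filter, Finset.mem_univ, true_and]

theorem mem_sysOf {n : ℕ} (G : Fin n → Finset (Cell n)) (x : Fin n × Fin n × Fin n) :
    x ∈ sysOf G ↔ x.2 ∈ G x.1 := by
  simp only [sysOf, Finset.mem_filter, Finset.mem_univ, true_and]

theorem sysOf_rowsOf {n : ℕ} (S : Finset (Fin n × Fin n × Fin n)) : sysOf (rowsOf S) = S := by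
  ext x
  rw [mem_sysOf, mem_rowsOf]

theorem rowsOf_sysOf {n : ℕ} (G : Fin n → Finset (Cell n)) : rowsOf (sysOf G) = G := by
  funext i
  ext e
  rw [mem_rowsOf, mem_sysOf]

theorem card_rowsOf {n : ℕ} (S : Finset (Fin n × Fin n × Fin n)) :
    S.card = ∑ i, (rowsOf S i).card := by
  rw [Finset.card_eq_sum_card_fiberwise (f := fun x : Fin n × Fin n × Fin n => x.1)
    (t := Finset.univ) (fun x _ => Finset.mem_coe.2 (Finset.mem_univ _))]
  refine Finset.sum_congr rfl fun i _ => ?_
  refine Finset.card_bij' (fun x _ => x.2) (fun e _ => (i, e)) ?_ ?_ ?_ ?_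
  · intro x hx
    rw [Finset.mem_filter] at hx
    rw [mem_rowsOf, ← hx.2]
    exact hx.1
  · intro e he
    rw [mem_rowsOf] at he
    rw [Finset.mem_filter]
    exact ⟨he, rfl⟩
  · intro x hx
    rw [Finset.mem_filter] at hx
    obtain ⟨_, h2⟩ := hx
    rw [← h2]
  · intro e he
    rfl

theorem card_row_le {n : ℕ} (A : Finset (Cell n)) : A.card ≤ n ^ 2 := by
  refine le_trans (Finset.card_le_univ A) ?_
  simp [sq]

theorem sum_compl {n : ℕ} (G : Fin n → Finset (Cell n)) :
    ∑ i, (n ^ 2 - (G i).card) = n ^ 3 - ∑ i, (G i).card := by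
  have h1 : ∑ i, (n ^ 2 - (G i).card) + ∑ i, (G i).card = n ^ 3 := by
    rw [← Finset.sum_add_distrib]
    have h2 : ∀ i ∈ (Finset.univ : Finset (Fin n)),
        (n ^ 2 - (G i).card) + (G i).card = n ^ 2 := by
      intro i _
      exact Nat.sub_add_cancel (card_row_le (G i))
    rw [Finset.sum_congr rfl h2, Finset.sum_const, Finset.card_univ, Fintype.card_fin, smul_eq_mul]
    ring
  omega

theorem weight_eq {n : ℕ} (p : ℝ) (S : Finset (Fin n × Fin n × Fin n)) :
    p ^ S.card * (1 - p) ^ (n ^ 3 - S.card) = ∏ i, wt n p (rowsOf S i) := by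
  have h : ∀ i ∈ (Finset.univ : Finset (Fin n)), wt n p (rowsOf S i) =
      p ^ (rowsOf S i).card * (1 - p) ^ (n ^ 2 - (rowsOf S i).card) := fun i _ => rfl
  rw [Finset.prod_congr rfl h, Finset.prod_mul_distrib, Finset.prod_pow_eq_pow_sum,
    Finset.prod_pow_eq_pow_sum, sum_compl, ← card_rowsOf]

/-- LR-7 -/
theorem transfer : Pool.Agent.Helper80.LR.TransferStmt := by
  intro n k p
  rw [prRect, prN]
  refine Finset.sum_bij' (fun S _ => rowsOf S) (fun G _ => sysOf G) ?_ ?_ ?_ ?_ ?_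
  · intro S hS
    rw [Finset.mem_filter] at hS ⊢
    refine ⟨Finset.mem_univ _, ?_⟩
    obtain ⟨_, L, h1, h2, h3⟩ := hS
    refine ⟨L, h1, h2, fun i j hi => ?_⟩
    rw [mem_rowsOf]
    exact h3 i j hi
  · intro G hG
    rw [Finset.mem_filter] at hG ⊢
    refine ⟨Finset.mem_univ _, ?_⟩
    obtain ⟨_, L, h1, h2, h3⟩ := hG
    refine ⟨L, h1, h2, fun i j hi => ?_⟩
    rw [mem_sysOf]
    exact h3 i j hi
  · intro S _
    exact sysOf_rowsOf S
  · intro G _
    exact rowsOf_sysOf G
  · intro S _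
    exact weight_eq p S

end Pool.Agent.Helper9.LR
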